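import Pool.Agent.helper55.NK.Spec

set_option autoImplicit false

namespace Pool.Agent.helper29.NK

open Finset Pool.Agent.NK

theorem CHA (hSIN : SIN_stmt) (hTWO : TWO_stmt) (hMON : MON_stmt) : CHA_stmt := by
  intro a b k C hk h10 hC hch
  rcases C.eq_empty_or_nonempty with rfl | hne
  · simp
  obtain ⟨m, hm, hmax⟩ := C.exists_max_image (fun c => c.1) hne
  have hmC := hC m hm
  have hsum : ∑ c ∈ C, a.choose c.1 * b.choose c.2 =
      a.choose m.1 * b.choose m.2 + ∑ c ∈ C.erase m, a.choose c.1 * b.choose c.2 :=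
    (add_sum_erase C (fun c => a.choose c.1 * b.choose c.2) hm).symm
  have hlt : ∀ c ∈ C.erase m, 1 ≤ c.1 ∧ 1 ≤ c.2 ∧ c.1 < m.1 ∧ c.2 < m.2 := by
    intro c hc
    have hcC := mem_of_mem_erase hc
    have hcm := ne_of_mem_erase hc
    have h1 := hC c hcC
    have h2 := hmax c hcC
    rcases hch c hcC m hm hcm with h | h
    · exact ⟨h1.1, h1.2.1, h.1, h.2⟩
    · exfalso
      omega
  rw [hsum]
  rcases (C.erase m).eq_empty_or_nonempty with he | ⟨c0, hc0⟩
  · rw [he, sum_empty, add_zero]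
    exact hSIN a b m.1 m.2 k hmC.1 hmC.2.1 hmC.2.2 h10
  · have h0 := hlt c0 hc0
    have h1 : IsCh (C.erase m) := fun c hc d hd hcd =>
      hch c (mem_of_mem_erase hc) d (mem_of_mem_erase hd) hcd
    refine (hTWO a b m.1 m.2 (C.erase m) (by omega) (by omega) (by omega) h1 hlt).trans ?_
    exact hMON (a + b) (m.1 + m.2) k (by omega) hmC.2.2 h10

end Pool.Agent.helper29.NK
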