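import Pool.Agent.helper55.NK.Spec

set_option autoImplicit false

namespace Pool.Agent.helper29.NK

open Finset Pool.Agent.NK

theorem EXP : EXP_stmt := by
  intro t ht
  have ht' : (2 : ℝ) ≤ t := by exact_mod_cast ht
  have h1 : (1 : ℝ) + 1 / ((t : ℝ) - 1) ≤ Real.exp (1 / ((t : ℝ) - 1)) := by
    have := Real.add_one_le_exp (1 / ((t : ℝ) - 1))
    linarith
  have hpos : (0 : ℝ) < (t : ℝ) - 1 := by linarith
  have e1 : (1 : ℝ) + 1 / ((t : ℝ) - 1) = (1 - 1 / (t : ℝ))⁻¹ := by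
    have : (t : ℝ) ≠ 0 := by linarith
    have h2 : (t : ℝ) - 1 ≠ 0 := hpos.ne'
    have h3 : 1 - 1 / (t : ℝ) = ((t : ℝ) - 1) / t := by field_simp
    rw [h3, inv_div]
    field_simp
    ring
  have hb : (0 : ℝ) < 1 - 1 / (t : ℝ) := by
    have : 1 / (t : ℝ) ≤ 1 / 2 := one_div_le_one_div_of_le (by norm_num) ht'
    linarith
  rw [e1] at h1
  have h2 : ((1 - 1 / (t : ℝ))⁻¹) ^ (t - 1) ≤ Real.exp 1 := by
    calc ((1 - 1 / (t : ℝ))⁻¹) ^ (t - 1) ≤ (Real.exp (1 / ((t : ℝ) - 1))) ^ (t - 1) :=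
          pow_le_pow_left₀ (inv_nonneg.2 hb.le) h1 _
      _ = Real.exp 1 := by
          rw [← Real.exp_nat_mul]
          congr 1
          rw [Nat.cast_sub (by omega)]
          push_cast
          field_simp
  rw [inv_pow] at h2
  have h3 : Real.exp (-1) ≤ (1 - 1 / (t : ℝ)) ^ (t - 1) := by
    rw [Real.exp_neg]
    exact (inv_le_comm₀ (Real.exp_pos 1) (pow_pos hb _)).2 h2
  have h4 := Real.exp_neg_one_gt_d9
  linarith

end Pool.Agent.helper29.NK
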