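import Pool.Agent.helper55.NK.Spec
import Pool.Agent.helper55.NK.Base

set_option autoImplicit false

namespace Pool.Agent.helper29.NK

open Finset Pool.Agent.NK

theorem MON_aux (N r d : ℕ) (h : 2 * (r + d) ≤ N) : N.choose r ≤ N.choose (r + d) := by
  induction d with
  | zero => exact le_rfl
  | succ d ih =>
    refine (ih (by omega)).trans ?_
    rw [← Nat.add_assoc]
    exact Nat.choose_le_succ_of_lt_half_left (by omega)

theorem MON : MON_stmt := by
  intro n t k ht htk h10
  have hq : (n + 1) / t ≤ (n + 1) / 2 := Nat.div_le_div_left ht (by norm_num)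
  have h1 := MON_aux (n - (n + 1) / t) (t - 1) (k - t) (by omega)
  have e : t - 1 + (k - t) = k - 1 := by omega
  rw [e] at h1
  have h2 := Pool.Agent.NK.Base.block_le n k (by omega) (by omega) ((n + 1) / t)
  unfold MV
  exact (Nat.mul_le_mul_left _ h1).trans h2

theorem SIN (hMON : MON_stmt) : SIN_stmt := by
  intro a b i j k hi hj hk h10
  have h1 := Pool.Agent.NK.Base.prod_le a b i j hi hj (by omega)
  exact h1.trans (hMON (a + b) (i + j) k (by omega) hk h10)

end Pool.Agent.helper29.NK
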