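import Pool.Agent.helper55.NK.Spec

set_option autoImplicit false

namespace Pool.Agent.helper29.NK

open Finset Pool.Agent.NK

theorem VAN : VAN_stmt := by
  intro a b i j hi hj
  have hsub : ({(i, j), (i - 1, j + 1), (i + 1, j - 1), (i - 2, j + 2), (i + 2, j - 2)} : Finset (ℕ × ℕ)) ⊆
      antidiagonal (i + j) := by
    intro p hp
    simp only [mem_insert, mem_singleton] at hp
    rw [HasAntidiagonal.mem_antidiagonal]
    rcases hp with rfl | rfl | rfl | rfl | rfl <;> simp only <;> omega
  have hsum : ∑ p ∈ ({(i, j), (i - 1, j + 1), (i + 1, j - 1), (i - 2, j + 2), (i + 2, j - 2)} : Finset (ℕ × ℕ)),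
      a.choose p.1 * b.choose p.2 = a.choose i * b.choose j + a.choose (i - 1) * b.choose (j + 1) +
        a.choose (i + 1) * b.choose (j - 1) + a.choose (i - 2) * b.choose (j + 2) +
        a.choose (i + 2) * b.choose (j - 2) := by
    rw [sum_insert, sum_insert, sum_insert, sum_insert, sum_singleton]
    · ring
    · simp only [mem_singleton, Prod.mk.injEq]
      omega
    · simp only [mem_insert, mem_singleton, Prod.mk.injEq]
      omega
    · simp only [mem_insert, mem_singleton, Prod.mk.injEq]
      omega
    · simp only [mem_insert, mem_singleton, Prod.mk.injEq]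
      omega
  rw [← hsum, Nat.add_choose_eq]
  exact sum_le_sum_of_subset hsub

end Pool.Agent.helper29.NK
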